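import Mathlib
import Pool.Agent.N483.KM.StmS

/-!
# KM-LORG: the Lorentz cones are good (helper395)
-/

set_option autoImplicit false

namespace Pool.Agent.N395.KM

open Set Filter Topology
open scoped InnerProductSpace
open Pool.Agent.R751.MB (Eu AP)
open Pool.Agent.N483.KM

section boost

variable {k : ℕ} (a m : ℝ) (b : Eu (Fin k))

/-- a multiple of a Lorentz boost -/
noncomputable def bst : (Eu (Fin k) × Eu (Fin 1)) →ₗ[ℝ] (Eu (Fin k) × Eu (Fin 1)) where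
  toFun p := (m • p.1 + (⟪b, p.1⟫_ℝ / (a + m) - p.2 0) • b,
    EuclideanSpace.single 0 (a * p.2 0 - ⟪b, p.1⟫_ℝ))
  map_add' p q := by
    refine Prod.ext ?_ ?_
    · simp only [Prod.fst_add, Prod.snd_add, inner_add_right, PiLp.add_apply]
      module
    · ext i
      fin_cases i
      simp only [Prod.fst_add, Prod.snd_add, inner_add_right, PiLp.add_apply,
        Fin.zero_eta, Fin.isValue, PiLp.single_apply, if_true]
      ring
  map_smul' c p := by
    refine Prod.ext ?_ ?_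
    · simp only [Prod.smul_fst, Prod.smul_snd, inner_smul_right, PiLp.smul_apply, smul_eq_mul,
        RingHom.id_apply]
      module
    · ext i
      fin_cases i
      simp only [Prod.smul_fst, Prod.smul_snd, inner_smul_right, PiLp.smul_apply, smul_eq_mul,
        Fin.zero_eta, Fin.isValue, PiLp.single_apply, if_true, RingHom.id_apply]
      ring

variable {a m b}

theorem bst_snd (p : Eu (Fin k) × Eu (Fin 1)) : (bst a m b p).2 0 = a * p.2 0 - ⟪b, p.1⟫_ℝ := by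
  simp [bst]

theorem bst_form (hm : 0 < m) (ha : 0 < a) (hb : m ^ 2 = a ^ 2 - ‖b‖ ^ 2)
    (p : Eu (Fin k) × Eu (Fin 1)) :
    ((bst a m b p).2 0) ^ 2 - ‖(bst a m b p).1‖ ^ 2 = m ^ 2 * ((p.2 0) ^ 2 - ‖p.1‖ ^ 2) := by
  rw [bst_snd]
  have h1 : (bst a m b p).1 = m • p.1 + (⟪b, p.1⟫_ℝ / (a + m) - p.2 0) • b := rfl
  rw [h1, @norm_add_sq_real, norm_smul, norm_smul, inner_smul_left, inner_smul_right, mul_pow,
    mul_pow, Real.norm_eq_abs, Real.norm_eq_abs, sq_abs, sq_abs, real_inner_comm]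
  have h2 : ‖b‖ ^ 2 = (a - m) * (a + m) := by linarith
  rw [h2]
  simp only [conj_trivial]
  have h3 : a + m ≠ 0 := by positivity
  field_simp
  ring

theorem bst_cone (hm : 0 < m) (hb : m ^ 2 = a ^ 2 - ‖b‖ ^ 2) (hab : ‖b‖ < a)
    (p : Eu (Fin k) × Eu (Fin 1)) :
    ‖(bst a m b p).1‖ ≤ (bst a m b p).2 0 ↔ ‖p.1‖ ≤ p.2 0 := by
  have ha : 0 < a := (norm_nonneg b).trans_lt hab
  have h1 := bst_form hm ha hb p
  have h2 := bst_snd (a := a) (m := m) (b := b) p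
  have h3 : |⟪b, p.1⟫_ℝ| ≤ ‖b‖ * ‖p.1‖ := abs_real_inner_le_norm b p.1
  have h4 := abs_le.1 h3
  have hm2 : 0 < m ^ 2 := by positivity
  constructor
  · intro h
    have h5 : 0 ≤ (bst a m b p).2 0 := (norm_nonneg _).trans h
    have h6 : ‖(bst a m b p).1‖ ^ 2 ≤ ((bst a m b p).2 0) ^ 2 := by
      gcongr
    have h7 : 0 ≤ m ^ 2 * ((p.2 0) ^ 2 - ‖p.1‖ ^ 2) := by linarith
    have h8 : ‖p.1‖ ^ 2 ≤ (p.2 0) ^ 2 := by
      have := nonneg_of_mul_nonneg_right h7 hm2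
      linarith
    have h9 : ‖p.1‖ ≤ |p.2 0| := by
      rw [← abs_of_nonneg (norm_nonneg p.1)]
      exact sq_le_sq.1 h8
    have h10 : 0 ≤ p.2 0 := by
      by_contra hcon
      push Not at hcon
      rw [abs_of_neg hcon] at h9
      have h11 : ‖b‖ * ‖p.1‖ ≤ ‖b‖ * (-p.2 0) := mul_le_mul_of_nonneg_left h9 (norm_nonneg b)
      nlinarith
    rwa [abs_of_nonneg h10] at h9
  · intro h
    have h5 : 0 ≤ p.2 0 := (norm_nonneg _).trans h
    have h6 : 0 ≤ (bst a m b p).2 0 := by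
      rw [h2]
      have h7 : ‖b‖ * ‖p.1‖ ≤ a * p.2 0 := mul_le_mul hab.le h (norm_nonneg _) ha.le
      linarith
    have h7 : 0 ≤ m ^ 2 * ((p.2 0) ^ 2 - ‖p.1‖ ^ 2) := by
      apply mul_nonneg hm2.le
      have : ‖p.1‖ ^ 2 ≤ (p.2 0) ^ 2 := by gcongr
      linarith
    have h8 : ‖(bst a m b p).1‖ ^ 2 ≤ ((bst a m b p).2 0) ^ 2 := by linarith
    exact (sq_le_sq₀ (norm_nonneg _) h6).1 h8

theorem bst_inj (hm : 0 < m) (hb : m ^ 2 = a ^ 2 - ‖b‖ ^ 2) (hab : ‖b‖ < a) :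
    Function.Injective (bst a m b) := by
  have ha : 0 < a := (norm_nonneg b).trans_lt hab
  rw [injective_iff_map_eq_zero]
  intro p hp
  have h1 := bst_cone hm hb hab p
  have h2 := bst_cone hm hb hab (-p)
  rw [map_neg, hp] at h2
  rw [hp] at h1
  have h3 : ‖p.1‖ ≤ p.2 0 := h1.1 (by simp)
  have h4 : ‖(-p).1‖ ≤ (-p).2 0 := h2.1 (by simp)
  have h5 : (-p).2 0 = -(p.2 0) := rfl
  rw [h5] at h4
  have h6 := norm_nonneg (-p).1
  have h7 := norm_nonneg p.1
  have h8 : ‖p.1‖ = 0 := by linarith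
  have h9 : p.2 0 = 0 := by linarith
  refine Prod.ext (norm_eq_zero.1 h8) ?_
  ext i
  fin_cases i
  exact h9

end boost

theorem cone_PC {k : ℕ} {κ : Type} [Fintype κ] (e : (Eu (Fin k) × Eu (Fin 1)) ≃ₗ[ℝ] Eu κ) :
    PC {z : Eu κ | ‖(e.symm z).1‖ ≤ (e.symm z).2 0} := by
  have hc : Continuous fun z : Eu κ => e.symm z :=
    (e.symm : Eu κ →ₗ[ℝ] (Eu (Fin k) × Eu (Fin 1))).continuous_of_finiteDimensional
  have h1 : Continuous fun z : Eu κ => ‖(e.symm z).1‖ := hc.fst.norm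
  have h2 : Continuous fun z : Eu κ => (e.symm z).2 0 :=
    (EuclideanSpace.proj (𝕜 := ℝ) (0 : Fin 1)).continuous.comp hc.snd
  refine ⟨isClosed_le h1 h2, ?_, ?_, ?_, ?_⟩
  · intro x hx y hy s t hs ht hst
    simp only [Set.mem_ofPred_eq] at hx hy ⊢
    rw [map_add, map_smul, map_smul]
    have h3 : (s • e.symm x + t • e.symm y).1 = s • (e.symm x).1 + t • (e.symm y).1 := rfl
    have h4 : (s • e.symm x + t • e.symm y).2 0 = s * (e.symm x).2 0 + t * (e.symm y).2 0 := rfl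
    rw [h3, h4]
    refine (norm_add_le _ _).trans ?_
    rw [norm_smul, norm_smul, Real.norm_of_nonneg hs, Real.norm_of_nonneg ht]
    gcongr
  · intro r hr x hx
    simp only [Set.mem_ofPred_eq] at hx ⊢
    rw [map_smul]
    have h3 : (r • e.symm x).1 = r • (e.symm x).1 := rfl
    have h4 : (r • e.symm x).2 0 = r * (e.symm x).2 0 := rfl
    rw [h3, h4, norm_smul, Real.norm_of_nonneg hr]
    gcongr
  · refine ⟨e (0, EuclideanSpace.single 0 1), ?_⟩
    rw [mem_interior]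
    have hsub : {z : Eu κ | ‖(e.symm z).1‖ < (e.symm z).2 0} ⊆
        {z : Eu κ | ‖(e.symm z).1‖ ≤ (e.symm z).2 0} := by
      intro z hz
      simp only [Set.mem_ofPred_eq] at hz ⊢
      exact hz.le
    refine ⟨{z : Eu κ | ‖(e.symm z).1‖ < (e.symm z).2 0}, hsub, isOpen_lt h1 h2, ?_⟩
    simp
  · intro x hx hx'
    simp only [Set.mem_ofPred_eq] at hx hx'
    rw [map_neg] at hx'
    have h3 : (-e.symm x).1 = -(e.symm x).1 := rfl
    have h4 : (-e.symm x).2 0 = -((e.symm x).2 0) := rfl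
    rw [h3, h4, norm_neg] at hx'
    have h7 := norm_nonneg (e.symm x).1
    have h8 : ‖(e.symm x).1‖ = 0 := by linarith
    have h9 : (e.symm x).2 0 = 0 := by linarith
    have h10 : e.symm x = 0 := by
      refine Prod.ext (norm_eq_zero.1 h8) ?_
      ext i
      fin_cases i
      exact h9
    exact (LinearEquiv.map_eq_zero_iff e.symm).1 h10

theorem t_LORG (h : S_LORB) : S_LORG := by
  obtain ⟨A, hA, H⟩ := h
  refine ⟨A, hA, fun k κ _ e => ⟨cone_PC e, fun f hf => ?_⟩⟩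
  -- the functional in coordinates
  obtain ⟨g, hg⟩ : ∃ g : (Eu (Fin k) × Eu (Fin 1)) →ₗ[ℝ] ℝ, g = f ∘ₗ e.toLinearMap := ⟨_, rfl⟩
  have hge : ∀ p, g p = f (e p) := fun p => by rw [hg]; rfl
  obtain ⟨b, hb⟩ : ∃ b : Eu (Fin k), ∀ x, g (x, 0) = -⟪b, x⟫_ℝ := by
    refine ⟨-(InnerProductSpace.toDual ℝ (Eu (Fin k))).symm
      (LinearMap.toContinuousLinearMap (g ∘ₗ LinearMap.inl ℝ _ _)), fun x => ?_⟩
    rw [inner_neg_left, neg_neg, InnerProductSpace.toDual_symm_apply]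
    rfl
  obtain ⟨a, ha⟩ : ∃ a, a = g (0, EuclideanSpace.single 0 1) := ⟨_, rfl⟩
  have hgen : ∀ p : Eu (Fin k) × Eu (Fin 1), g p = a * p.2 0 - ⟪b, p.1⟫_ℝ := by
    rintro ⟨x, s⟩
    have h1 : ((x, s) : Eu (Fin k) × Eu (Fin 1)) =
        (x, 0) + s 0 • ((0, EuclideanSpace.single 0 1) : Eu (Fin k) × Eu (Fin 1)) := by
      refine Prod.ext ?_ ?_
      · simp
      · ext i
        fin_cases i
        simp
    rw [h1, map_add, map_smul, hb, ← ha, smul_eq_mul]
    simp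
    ring
  have hpos : ∀ p : Eu (Fin k) × Eu (Fin 1), ‖p.1‖ ≤ p.2 0 → p ≠ 0 → 0 < g p := by
    intro p hp hp0
    rw [hge]
    refine hf (e p) ?_ ((LinearEquiv.map_ne_zero_iff e).2 hp0)
    rw [Set.mem_ofPred_eq, LinearEquiv.symm_apply_apply]
    exact hp
  have ha0 : 0 < a := by
    rw [ha]
    refine hpos _ (by simp) ?_
    intro h0
    have h1 := congrArg (fun p : Eu (Fin k) × Eu (Fin 1) => p.2 0) h0
    simp at h1
  have hab : ‖b‖ < a := by
    rcases eq_or_ne b 0 with h0 | h0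
    · rw [h0, norm_zero]
      exact ha0
    · have hb0 : 0 < ‖b‖ := norm_pos_iff.2 h0
      have h1 := hpos (‖b‖⁻¹ • b, EuclideanSpace.single 0 1) (by
        rw [norm_smul, norm_inv, norm_norm, inv_mul_cancel₀ hb0.ne']
        simp) (by
        intro h0
        have h1 := congrArg (fun p : Eu (Fin k) × Eu (Fin 1) => p.2 0) h0
        simp at h1)
      rw [hgen] at h1
      simp only [inner_smul_right, real_inner_self_eq_norm_sq] at h1
      have h2 : ‖b‖⁻¹ * ‖b‖ ^ 2 = ‖b‖ := by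
        field_simp
      rw [h2] at h1
      simp at h1
      linarith
  obtain ⟨m, hm⟩ : ∃ m, m = Real.sqrt (a ^ 2 - ‖b‖ ^ 2) := ⟨_, rfl⟩
  have hsub : 0 < a ^ 2 - ‖b‖ ^ 2 := by
    have := norm_nonneg b
    nlinarith
  have hm0 : 0 < m := by
    rw [hm]
    exact Real.sqrt_pos.2 hsub
  have hm2 : m ^ 2 = a ^ 2 - ‖b‖ ^ 2 := by
    rw [hm]
    exact Real.sq_sqrt hsub.le
  obtain ⟨B, hB⟩ : ∃ B : (Eu (Fin k) × Eu (Fin 1)) ≃ₗ[ℝ] (Eu (Fin k) × Eu (Fin 1)),
      ∀ p, B p = bst a m b p :=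
    ⟨LinearEquiv.ofInjectiveEndo _ (bst_inj hm0 hm2 hab), fun p => rfl⟩
  have key := H k κ (B.symm.trans e)
  have heq : wl (B.symm.trans e) = wc {z : Eu κ | ‖(e.symm z).1‖ ≤ (e.symm z).2 0} f := by
    funext z
    have h1 : (B.symm.trans e).symm z = bst a m b (e.symm z) := hB (e.symm z)
    have h2 : (bst a m b (e.symm z)).2 0 = f z := by
      rw [bst_snd, ← hgen, hge, LinearEquiv.apply_symm_apply]
    unfold wl wc
    rw [h1]
    by_cases hz : ‖(e.symm z).1‖ ≤ (e.symm z).2 0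
    · rw [if_pos ((bst_cone hm0 hm2 hab _).2 hz), indicator_of_mem (by exact hz), h2]
    · rw [if_neg (fun h => hz ((bst_cone hm0 hm2 hab _).1 h)),
        indicator_of_notMem (by exact hz)]
  rw [← heq]
  exact key

end Pool.Agent.N395.KM
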